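import Pool.Agent.W2helper77.CS.Stm

/-!
Project CS (helper77), piece ODD: passage from `2m` to `2m+1` values.
-/

set_option autoImplicit false

namespace Pool.Agent.W2helper24.CS

open Pool.Agent.W2helper77.CS

/-- a rotation of the filtered list comes from a rotation of the list -/
theorem exists_rotate_filter (L : List ℤ) (p : ℤ → Bool) (k : ℕ) :
    ∃ r, (L.rotate r).filter p = (L.filter p).rotate k := by
  induction k with
  | zero => exact ⟨0, by simp⟩
  | succ k ih =>
    obtain ⟨r, hr⟩ := ih
    have e : (L.filter p).rotate (k + 1) = ((L.rotate r).filter p).rotate 1 := by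
      rw [hr, List.rotate_rotate]
    rw [e]
    rcases h : (L.rotate r).filter p with _ | ⟨a, M⟩
    · exact ⟨r, by rw [h]; simp⟩
    · obtain ⟨l₁, l₂, h1, h2, h3, h4⟩ := List.filter_eq_cons_iff.1 h
      refine ⟨r + (l₁ ++ [a]).length, ?_⟩
      have h1' : L.rotate r = (l₁ ++ [a]) ++ l₂ := by rw [h1]; simp
      rw [← List.rotate_rotate, h1', List.rotate_append_length_eq, List.filter_append,
        List.filter_append, h4]
      have h5 : l₁.filter p = [] := List.filter_eq_nil_iff.2 h2
      rw [h5]
      simp [h3]

theorem asc_le_of_sublist {l₁ l₂ : List ℤ} (h : l₁.Sublist l₂) : asc l₁ ≤ asc l₂ := by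
  induction h with
  | slnil => exact le_rfl
  | cons a h ih => exact ih.trans (Nat.le_add_left _ _)
  | cons_cons a h ih => exact Nat.add_le_add (h.countP_le) ih

theorem asc_map (φ : ℤ → ℤ) : ∀ l : List ℤ, (∀ v ∈ l, ∀ w ∈ l, v < w ↔ φ v < φ w) →
    asc (l.map φ) = asc l := by
  intro l
  induction l with
  | nil => intro _; rfl
  | cons a l ih =>
    intro h
    rw [List.map_cons, asc, asc, ih fun v hv w hw => h v (List.mem_cons_of_mem _ hv) w
      (List.mem_cons_of_mem _ hw), List.countP_map]
    congr 1
    apply List.countP_congr
    intro w hw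
    have := h a List.mem_cons_self w (List.mem_cons_of_mem _ hw)
    simp [this]

/-- inserting an element adds at most the length -/
theorem asc_insert (a : ℤ) (B : List ℤ) : ∀ A : List ℤ,
    asc (A ++ a :: B) ≤ asc (A ++ B) + (A.length + B.length) := by
  intro A
  induction A with
  | nil =>
    simp only [List.nil_append, asc, List.length_nil, zero_add]
    have := List.countP_le_length (p := fun b => decide (a < b)) (l := B)
    omega
  | cons x A ih =>
    simp only [List.cons_append, asc, List.length_cons, List.countP_append, List.countP_cons]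
    split_ifs <;> omega

/-- the map from even to odd values -/
def down (v : ℤ) : ℤ := if 0 < v then v - 1 else v + 1

/-- the map from odd to even values -/
def up (v : ℤ) : ℤ := if 0 < v then v + 1 else v - 1

theorem vals_succ (m : ℕ) : vals (m + 1) = vals m ++ [2 * (m : ℤ) + 1, -(2 * (m : ℤ) + 1)] := by
  rw [vals, vals, List.range_succ, List.flatMap_append]
  simp

theorem valsO_succ (m : ℕ) :
    valsO (m + 1) = valsO m ++ [2 * (m : ℤ) + 2, -(2 * (m : ℤ) + 2)] := by
  rw [valsO, valsO, List.range_succ, List.flatMap_append]
  simp

theorem valsO_down (m : ℕ) : ((valsO m).filter (fun v => decide (v ≠ 0))).map down = vals m := by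
  induction m with
  | zero => simp [vals, valsO]
  | succ m ih =>
    rw [valsO_succ, vals_succ, List.filter_append, List.map_append, ih]
    have h1 : (2 * (m : ℤ) + 2) ≠ 0 := by positivity
    have h2 : -(2 * (m : ℤ) + 2) ≠ 0 := by omega
    have h3 : 0 < 2 * (m : ℤ) + 2 := by positivity
    have h4 : ¬ 0 < -(2 * (m : ℤ) + 2) := by omega
    rw [List.filter_cons_of_pos (by simpa using h1), List.filter_cons_of_pos (by simpa using h2)]
    simp only [List.filter_nil, List.map_cons, List.map_nil, down, if_pos h3, if_neg h4]
    have e1 : 2 * (m : ℤ) + 2 - 1 = 2 * (m : ℤ) + 1 := by ring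
    have e2 : -(2 * (m : ℤ) + 2) + 1 = -(2 * (m : ℤ) + 1) := by ring
    rw [e1, e2]

theorem vals_up (m : ℕ) : valsO m = 0 :: (vals m).map up := by
  induction m with
  | zero => simp [vals, valsO]
  | succ m ih =>
    rw [valsO_succ, vals_succ, List.map_append, ih]
    have h3 : 0 < 2 * (m : ℤ) + 1 := by positivity
    have h4 : ¬ 0 < -(2 * (m : ℤ) + 1) := by omega
    simp only [List.map_cons, List.map_nil, up, if_pos h3, if_neg h4, List.cons_append]
    have e1 : 2 * (m : ℤ) + 1 + 1 = 2 * (m : ℤ) + 2 := by ring
    have e2 : -(2 * (m : ℤ) + 1) - 1 = -(2 * (m : ℤ) + 2) := by ring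
    rw [e1, e2]

theorem mem_valsO {m : ℕ} {v : ℤ} (h : v ∈ valsO m) (h0 : v ≠ 0) : 2 ≤ v ∨ v ≤ -2 := by
  rw [valsO, List.mem_cons, List.mem_flatMap] at h
  rcases h with h | ⟨k, -, h⟩
  · exact absurd h h0
  · simp only [List.mem_cons, List.not_mem_nil, or_false] at h
    rcases h with h | h <;> omega

theorem length_vals (m : ℕ) : (vals m).length = 2 * m := by
  induction m with
  | zero => simp [vals]
  | succ m ih => rw [vals_succ, List.length_append, ih]; simp; ring

theorem odd : S_ODD := by
  constructor
  · intro m b hyp L hL
    set p : ℤ → Bool := fun v => decide (v ≠ 0) with hp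
    have hperm : ((L.filter p).map down).Perm (vals m) := by
      rw [← valsO_down m]
      exact (hL.filter p).map down
    obtain ⟨k, hk⟩ := hyp _ hperm
    obtain ⟨r, hr⟩ := exists_rotate_filter L p k
    refine ⟨r, hk.trans ?_⟩
    have h1 : asc (((L.filter p).map down).rotate k) = asc ((L.rotate r).filter p) := by
      rw [← List.map_rotate, ← hr]
      apply asc_map
      intro v hv w hw
      have aux : ∀ u ∈ (L.rotate r).filter p, 2 ≤ u ∨ u ≤ -2 := by
        intro u hu
        rw [List.mem_filter] at hu
        have h2 : u ∈ valsO m := hL.subset (List.mem_rotate.1 hu.1)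
        exact mem_valsO h2 (by simpa [hp] using hu.2)
      rcases aux v hv with h2 | h2 <;> rcases aux w hw with h3 | h3 <;>
        simp only [down] <;> split_ifs <;> omega
    rw [h1]
    exact_mod_cast asc_le_of_sublist List.filter_sublist
  · rintro m b ⟨L, hL, hb⟩
    have hlen : (L.map up).length = 2 * m := by rw [List.length_map, hL.length_eq, length_vals]
    have hmap : ∀ s, asc ((L.map up).rotate s) = asc (L.rotate s) := by
      intro s
      rw [← List.map_rotate]
      apply asc_map
      intro v hv w hw
      simp only [up]
      split_ifs <;> omega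
    refine ⟨0 :: L.map up, ?_, fun r => ?_⟩
    · rw [vals_up]
      exact (hL.map up).cons 0
    · rw [← List.rotate_mod]
      have hlt : r % (0 :: L.map up).length < 2 * m + 1 := by
        have h := Nat.mod_lt r (y := (0 :: L.map up).length) (by simp)
        have h' : (0 :: L.map up).length = 2 * m + 1 := by rw [List.length_cons, hlen]
        omega
      generalize r % (0 :: L.map up).length = s at hlt
      rcases s with _ | s
      · rw [List.rotate_zero]
        have h1 := asc_insert 0 (L.map up) []
        rw [List.nil_append, List.nil_append, List.length_nil, zero_add, hlen] at h1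
        have h2 := hb 0
        have h3 := hmap 0
        rw [List.rotate_zero] at h2 h3
        have h4 : (asc (0 :: L.map up) : ℝ) ≤ asc (L.map up) + (2 * m : ℕ) := by exact_mod_cast h1
        rw [h3] at h4
        push_cast at h4
        rw [List.rotate_zero] at h4
        linarith
      · have hs : s ≤ (L.map up).length := by omega
        rw [List.rotate_eq_drop_append_take (by rw [List.length_cons]; omega), List.drop_succ_cons,
          List.take_succ_cons]
        have h1 := asc_insert 0 ((L.map up).take s) ((L.map up).drop s)
        have h5 : ((L.map up).drop s).length + ((L.map up).take s).length = 2 * m := by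
          rw [List.length_drop, List.length_take, hlen]; omega
        rw [h5, ← List.rotate_eq_drop_append_take hs, hmap s] at h1
        have h2 := hb s
        have h4 : (asc ((L.map up).drop s ++ 0 :: (L.map up).take s) : ℝ) ≤
            asc (L.rotate s) + (2 * m : ℕ) := by exact_mod_cast h1
        push_cast at h4
        linarith

end Pool.Agent.W2helper24.CS
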