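import Pool.Agent.W2helper77.CS.Stm

/-!
Project CS (helper77), piece CYC: the cycle lemma.
-/

set_option autoImplicit false

namespace Pool.Agent.W2helper24.CS

open Pool.Agent.W2helper77.CS

theorem sum_take_rotate (l : List ℤ) (h0 : l.sum = 0) (r : ℕ) (hr : r ≤ l.length)
    (hmin : ∀ k, (l.take r).sum ≤ (l.take k).sum) (i : ℕ) :
    0 ≤ ((l.rotate r).take i).sum := by
  rw [List.rotate_eq_drop_append_take hr, List.take_append, List.sum_append]
  have h1 : (l.take (r + i)).sum = (l.take r).sum + ((l.drop r).take i).sum := by
    rw [List.take_add, List.sum_append]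
  have h2 : (l.drop r).length = l.length - r := List.length_drop
  rw [h2, List.take_take]
  rcases le_total i (l.length - r) with hi | hi
  · have h3 : i - (l.length - r) = 0 := Nat.sub_eq_zero_of_le hi
    rw [h3, Nat.zero_min, List.take_zero, List.sum_nil]
    have := hmin (r + i)
    linarith
  · have h3 : (l.take (r + i)).sum = 0 := by
      rw [List.take_of_length_le (by omega), h0]
    have := hmin (min (i - (l.length - r)) r)
    linarith

theorem cyc1 (l : List ℤ) (h0 : l.sum = 0) : ∃ r, ∀ i, 0 ≤ ((l.rotate r).take i).sum := by
  obtain ⟨r, hr, hmin⟩ := Finset.exists_min_image (Finset.range (l.length + 1))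
    (fun k => (l.take k).sum) ⟨0, by simp⟩
  rw [Finset.mem_range] at hr
  refine ⟨r, sum_take_rotate l h0 r (by omega) fun k => ?_⟩
  rcases le_total k l.length with hk | hk
  · exact hmin k (by rw [Finset.mem_range]; omega)
  · have h1 : (l.take r).sum ≤ (l.take l.length).sum :=
      hmin l.length (by rw [Finset.mem_range]; omega)
    rw [List.take_length] at h1
    rwa [List.take_of_length_le hk]

theorem sum_zip (w : ℕ) : ∀ a b : List ℕ, a.length = b.length →
    (List.zipWith (fun x y => (if y = w then (1 : ℤ) else 0) - (if x = w then 1 else 0)) a b).sum =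
      (b.count w : ℤ) - a.count w := by
  intro a
  induction a with
  | nil =>
    intro b hb
    have : b = [] := List.length_eq_zero_iff.1 (by simpa using hb.symm)
    subst this
    simp
  | cons x a ih =>
    intro b hb
    cases b with
    | nil => simp at hb
    | cons y b =>
      have h := ih b (by simpa using hb)
      rw [List.zipWith_cons_cons, List.sum_cons, h, List.count_cons, List.count_cons]
      by_cases h1 : y = w <;> by_cases h2 : x = w <;> simp [h1, h2] <;> ring

theorem cyc : S_CYC := by
  refine ⟨cyc1, fun w xs ys hl hc => ?_⟩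
  obtain ⟨r, hr⟩ := cyc1 (List.zipWith
    (fun x y => (if y = w then (1 : ℤ) else 0) - (if x = w then 1 else 0)) xs ys) (by
      rw [sum_zip w xs ys hl, hc, sub_self])
  refine ⟨r, fun i => ?_⟩
  have h := hr i
  rw [List.zipWith_rotate_distrib _ _ _ _ hl, List.take_zipWith, sum_zip] at h
  · omega
  · simp [hl]

end Pool.Agent.W2helper24.CS
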